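import Pool.Agent.W602.RG.Stm3
import Pool.Agent.W602.RG.All

/-! A nonconstant family of pointed maps to a variety given by sums of few high powers of linear
forms gives a line. -/

set_option autoImplicit false

open FF MvPolynomial Pool.Agent.W603.LV Pool.Agent.W603.PV
open Pool.Agent.W602.GT (lin lin_map lin_smul lin_div lin_add_smul)
open Pool.Agent.W602.RG

namespace Pool.Agent.W588.RG.ABW

section aux

variable {k L Ω E : Type} [Field k] [Field L] [Field Ω] [Field E] [Algebra k L]
    [Algebra k Ω] [Algebra k E] [Algebra L E] [Algebra Ω E]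

/-- a constant vanishing at a place is zero -/
theorem const_zero (P : Place Ω E) {c : Ω} (h : Ge P 1 (algebraMap Ω E c)) : c = 0 := by
  by_contra hc
  rcases h with h | h
  · exact hc ((map_eq_zero _).1 h)
  · rw [P.ord_const hc] at h; omega

theorem const_zero_k [IsScalarTower k Ω E] (P : Place Ω E) {c : k}
    (h : Ge P 1 (algebraMap k E c)) : c = 0 := by
  rw [IsScalarTower.algebraMap_apply k Ω E] at h
  exact (map_eq_zero _).1 (const_zero P h)

theorem ge_const_k [IsScalarTower k Ω E] (P : Place Ω E) (c : k) :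
    Ge P 0 (algebraMap k E c) := by
  rw [IsScalarTower.algebraMap_apply k Ω E]
  exact Ge.const _

/-- congruent products -/
theorem cong_mul (P : Place Ω E) {a a' b b' : E} (ha : Ge P 1 (a - a')) (ha' : Ge P 0 a')
    (hb : Ge P 1 (b - b')) (hb0 : Ge P 0 b) : Ge P 1 (a * b - a' * b') := by
  have h1 : a * b - a' * b' = (a - a') * b + a' * (b - b') := by ring
  rw [h1]
  refine Ge.add ?_ ?_
  · simpa using ha.mul hb0
  · simpa using ha'.mul hb

theorem cong_ge (P : Place Ω E) {a a' : E} (ha : Ge P 1 (a - a')) (ha' : Ge P 0 a') :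
    Ge P 0 a := by
  have h1 : a = (a - a') + a' := by ring
  rw [h1]
  exact (ha.mono (by norm_num)).add ha'

/-- congruent powers -/
theorem cong_pow (P : Place Ω E) {a a' : E} (ha : Ge P 1 (a - a')) (ha' : Ge P 0 a') (m : ℕ) :
    Ge P 1 (a ^ m - a' ^ m) := by
  induction m with
  | zero => simpa using Ge.zero
  | succ m ih =>
    rw [pow_succ, pow_succ]
    exact cong_mul P ih (by simpa using ha'.pow m) ha (cong_ge P ha ha')

/-- the value of a linear form at a point congruent to a given point -/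
theorem cong_lin [IsScalarTower k Ω E] (P : Place Ω E) {n : ℕ} (l : Fin (n + 1) → k)
    (f g : Fin (n + 1) → E) (h : ∀ j, Ge P 1 (f j - g j)) : Ge P 1 (lin l f - lin l g) := by
  have h1 : lin l f - lin l g = ∑ j, algebraMap k E (l j) * (f j - g j) := by
    unfold lin
    rw [← Finset.sum_sub_distrib]
    exact Finset.sum_congr rfl fun j _ => by ring
  rw [h1]
  refine Ge.sum _ _ fun j _ => ?_
  simpa using (ge_const_k P (l j)).mul (h j)

theorem lin_const {A B : Type} [Field A] [Algebra k A] [Field B] [Algebra k B] [Algebra A B]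
    [IsScalarTower k A B] {n : ℕ} (l : Fin (n + 1) → k) (v : Fin (n + 1) → A) :
    lin l (fun j => algebraMap A B (v j)) = algebraMap A B (lin l v) := by
  unfold lin
  rw [map_sum]
  exact Finset.sum_congr rfl fun j _ => by
    rw [map_mul, ← IsScalarTower.algebraMap_apply k A B]

omit [Algebra k L] in
theorem lin_D (D : Derivation L E E) (hDk : ∀ a : k, D (algebraMap k E a) = 0) {n : ℕ}
    (l : Fin (n + 1) → k) (f : Fin (n + 1) → E) :
    lin l (fun j => D (f j)) = D (lin l f) := by
  unfold lin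
  rw [map_sum]
  refine Finset.sum_congr rfl fun i _ => ?_
  rw [D.leibniz, hDk, smul_zero, add_zero, smul_eq_mul]

omit [Algebra k L] in
/-- the key computation: related powers have proportional derivatives -/
theorem key [CharZero k] [IsAlgClosed Ω] [CharZero E] [IsScalarTower k Ω E]
    (D : Derivation L E E) (D0 : Derivation k Ω Ω)
    (hD : ∀ ω, D (algebraMap Ω E ω) = algebraMap Ω E (D0 ω)) (P : Place Ω E) (hP : Reg0 D P)
    {u u' : E} {a a' : k} (ha : a ≠ 0) (ha' : a' ≠ 0)
    (hu : Ge P 1 (u - algebraMap k E a)) (hu' : Ge P 1 (u' - algebraMap k E a'))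
    {N : ℕ} (hN : 0 < N) (hR : Rel Ω D (u ^ N) (u' ^ N)) : D u * u' = D u' * u := by
  have hk : IsScalarTower k Ω E := inferInstance
  have hconv : ∀ {g : E} {c : k}, Ge P 1 (g - algebraMap k E c) →
      (g = algebraMap k E c ∨ 0 < P.ord (g - algebraMap k E c)) := by
    intro g c h
    rcases h with h | h
    · exact Or.inl (sub_eq_zero.1 h)
    · exact Or.inr (by omega)
  obtain ⟨hu0, -⟩ := ord_ratio_zero P ha hk (hconv hu)
  obtain ⟨hu0', hord'⟩ := ord_ratio_zero P ha' hk (hconv hu')
  obtain ⟨ω, e, hω, he, hDe, h⟩ := hR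
  obtain ⟨ω1, hω1⟩ := IsAlgClosed.exists_pow_nat_eq ω hN
  have hω10 : ω1 ≠ 0 := by
    rintro rfl
    rw [zero_pow hN.ne'] at hω1
    exact hω hω1.symm
  have hωE : algebraMap Ω E ω1 ≠ 0 := (map_ne_zero _).2 hω10
  set e1 : E := u / (algebraMap Ω E ω1 * u') with he1
  have he10 : e1 ≠ 0 := div_ne_zero hu0 (mul_ne_zero hωE hu0')
  have hue : u = e1 * algebraMap Ω E ω1 * u' := by
    rw [he1]; field_simp
  have he1N : e1 ^ N = e := by
    have h1 : u ^ N = algebraMap Ω E ω * e1 ^ N * u' ^ N := by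
      rw [hue, ← hω1, map_pow]; ring
    rw [h1] at h
    have h2 : algebraMap Ω E ω ≠ 0 := (map_ne_zero _).2 hω
    have h3 : u' ^ N ≠ 0 := pow_ne_zero _ hu0'
    exact mul_left_cancel₀ h2 (mul_right_cancel₀ h3 h)
  have hDe1 : D e1 = 0 := by
    have h1 : D (e1 ^ N) = 0 := by rw [he1N, hDe]
    rw [D.leibniz_pow] at h1
    simp only [nsmul_eq_mul, smul_eq_mul] at h1
    have h2 : (N : E) ≠ 0 := by exact_mod_cast hN.ne'
    exact ((mul_eq_zero.1 ((mul_eq_zero.1 h1).resolve_left h2)).resolve_left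
      (pow_ne_zero _ he10))
  have haΩ : algebraMap k Ω a ≠ 0 := (map_ne_zero _).2 ha
  have haΩ' : algebraMap k Ω a' ≠ 0 := (map_ne_zero _).2 ha'
  set η : Ω := algebraMap k Ω a / (ω1 * algebraMap k Ω a') with hη
  have hη0 : η ≠ 0 := div_ne_zero haΩ (mul_ne_zero hω10 haΩ')
  have hηE : algebraMap Ω E η = algebraMap k E a / (algebraMap Ω E ω1 * algebraMap k E a') := by
    rw [hη, map_div₀, map_mul, ← IsScalarTower.algebraMap_apply k Ω E,
      ← IsScalarTower.algebraMap_apply k Ω E]
  have haE' : algebraMap k E a' ≠ 0 := (map_ne_zero _).2 ha'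
  have haord' : P.ord (algebraMap k E a') = 0 := by
    rw [IsScalarTower.algebraMap_apply k Ω E]
    exact P.ord_const haΩ'
  have hge : Ge P 1 (e1 - algebraMap Ω E η) := by
    have hh0 : algebraMap Ω E ω1 * u' * algebraMap k E a' ≠ 0 :=
      mul_ne_zero (mul_ne_zero hωE hu0') haE'
    refine Ge.of_mul' (m := 0) hh0 ?_ ?_
    · rw [P.ord_mul (mul_ne_zero hωE hu0') haE', P.ord_mul hωE hu0', P.ord_const hω10, hord',
        haord']
      rfl
    · have h1 : algebraMap Ω E ω1 * u' * algebraMap k E a' * (e1 - algebraMap Ω E η) =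
          (u - algebraMap k E a) * algebraMap k E a' -
            algebraMap k E a * (u' - algebraMap k E a') := by
        rw [hηE, he1]
        field_simp
        ring
      rw [h1, add_zero]
      refine Ge.sub ?_ ?_
      · simpa using hu.mul (ge_const_k P a')
      · simpa using (ge_const_k P a).mul hu'
  have hD0η : D0 η = 0 := by
    by_contra hne
    have h1 : D (e1 - algebraMap Ω E η) = - algebraMap Ω E (D0 η) := by
      rw [map_sub, hDe1, hD, zero_sub]
    have h2 : algebraMap Ω E (D0 η) ≠ 0 := (map_ne_zero _).2 hne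
    have h3 := hP (e1 - algebraMap Ω E η) (by rw [h1]; exact neg_ne_zero.2 h2)
    rw [h1, P.ord_neg, P.ord_const hne] at h3
    rcases hge with h4 | h4
    · rw [h4, map_zero] at h1
      exact (neg_ne_zero.2 h2) h1.symm
    · omega
  have hD0ω : D0 ω1 = 0 := by
    have h1 : algebraMap k Ω (a / a') = η * ω1 := by
      rw [hη, map_div₀]
      field_simp
    have h2 : D0 (η * ω1) = 0 := by rw [← h1, D0.map_algebraMap]
    rw [D0.leibniz, hD0η, smul_zero, add_zero, smul_eq_mul] at h2
    exact (mul_eq_zero.1 h2).resolve_left hη0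
  have hDω : D (algebraMap Ω E ω1) = 0 := by rw [hD, hD0ω, map_zero]
  have hDu : D u = e1 * algebraMap Ω E ω1 * D u' := by
    conv_lhs => rw [hue]
    rw [D.leibniz, D.leibniz, hDe1, hDω]
    simp only [smul_eq_mul, mul_zero, add_zero]
  rw [hDu]
  conv_rhs => rw [hue]
  ring

end aux

theorem main : S_ABW := by
  intro k L Ω E _ _ _ _ _ _ _ _ _ _ _ _ _ _ hBC n ι s d l hd hsd x f hZ j0 hj0 hfj0 hsum P hP
    hPx P1 hP1 i1 θ hθ hPθ
  classical
  have hkL : IsScalarTower k L E := hBC.towerL
  have hkΩ : IsScalarTower k Ω E := hBC.towerO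
  have hcL : CharZero L := charZero_of_injective_algebraMap (algebraMap k L).injective
  have hcE : CharZero E := charZero_of_injective_algebraMap (algebraMap k E).injective
  have hFF : IsFF Ω E := Pool.Agent.W215.RG.ISF.main k L Ω E hBC
  obtain ⟨D0, hD0⟩ := Pool.Agent.W160.RG.DER.main k Ω θ hθ
  obtain ⟨D, hD⟩ := Pool.Agent.W797.RG.main k L Ω E hBC D0
  have hregC : ∀ P : Place Ω E, (∃ l : L, P.ord (algebraMap L E l) ≠ 0) → Reg0 D P :=
    Pool.Agent.W215.RG.RGC.main k L Ω E hBC D D0 hD
  have hreg : ∀ P : Place Ω E, Reg0 D P ∨ Mov D P := by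
    intro P
    by_cases h : ∃ l : L, P.ord (algebraMap L E l) ≠ 0
    · exact Or.inl (hregC P h)
    · push Not at h
      exact Pool.Agent.W440.RG.RGM.main k L Ω E hBC D D0 hD P h
  have hDk : ∀ a : k, D (algebraMap k E a) = 0 := by
    intro a
    rw [IsScalarTower.algebraMap_apply k L E, D.map_algebraMap]
  -- the point and its residues
  have hPx' : ∀ j, Ge P 1 (f j - algebraMap k E (x j / x j0)) := by
    intro j
    rcases hPx j with h | h
    · left; rw [h, sub_self]
    · right; omega
  have hlx : ∀ l : Fin (n + 1) → k, lin l (fun j => x j / x j0) = lin l x / x j0 := fun l =>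
    lin_div l x (x j0)
  have hlin : ∀ l : Fin (n + 1) → k, Ge P 1 (lin l f - algebraMap k E (lin l x / x j0)) := by
    intro l
    have h1 := cong_lin P l f (fun j => algebraMap k E (x j / x j0)) hPx'
    rw [lin_const (A := k) (B := E) l (fun j => x j / x j0), hlx] at h1
    exact h1
  have hlin0 : ∀ l : Fin (n + 1) → k, Ge P 0 (lin l f) := fun l =>
    cong_ge P (hlin l) (ge_const_k P _)
  have hlinne : ∀ l : Fin (n + 1) → k, lin l x ≠ 0 → lin l f ≠ 0 := by
    intro l hl h0
    have h1 := hlin l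
    rw [h0, zero_sub] at h1
    have h3 := h1.neg
    rw [neg_neg] at h3
    exact (div_ne_zero hl hj0) (const_zero_k (Ω := Ω) P h3)
  -- the terms
  let J : ∀ i, Finset (Fin (s i)) := fun i => Finset.univ.filter fun t => lin (l i t) x ≠ 0
  have hJ : ∀ i t, t ∈ J i ↔ lin (l i t) x ≠ 0 := fun i t => by
    simp only [J, Finset.mem_filter, Finset.mem_univ, true_and]
  have hsumJ : ∀ i, ∑ t ∈ J i, (1 : E) * lin (l i t) f ^ d i = 0 := by
    intro i
    rw [← hsum i]
    simp only [one_mul]
    apply Finset.sum_subset (Finset.subset_univ _)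
    intro t _ ht
    have h1 : lin (l i t) x = 0 := by
      by_contra h
      exact ht ((hJ i t).2 h)
    rw [hZ i t h1, zero_pow (hd i).ne']
  have hclass : ∀ i (t0 : Fin (s i)) (T : Finset (Fin (s i))), t0 ∈ J i →
      (∀ t, t ∈ T ↔ t ∈ J i ∧ Rel Ω D (lin (l i t) f ^ d i) (lin (l i t0) f ^ d i)) →
      ∑ t ∈ T, (1 : E) * lin (l i t) f ^ d i = 0 := by
    intro i t0 T ht0 hT
    refine cls_all L Ω E (Fin (s i)) D hreg (J i) (d i) (hd i) ?_
      (fun t => lin (l i t) f ^ d i) (fun _ => 1) ?_ ?_ (hsumJ i) ?_ t0 T ht0 hT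
    · have h1 : (J i).card ≤ s i := by
        have := Finset.card_filter_le (Finset.univ : Finset (Fin (s i)))
          (fun t => lin (l i t) x ≠ 0)
        rwa [Finset.card_univ, Fintype.card_fin] at this
      exact (Nat.pow_le_pow_left (by omega) 2).trans (hsd i)
    · intro t ht
      exact pow_ne_zero _ (hlinne _ ((hJ i t).1 ht))
    · intro t _
      exact D.map_one_eq_zero
    · intro Q _ t _ t' _
      rw [Q.ord_pow, Q.ord_pow]
      exact dvd_sub (dvd_mul_right _ _) (dvd_mul_right _ _)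
  -- the relation
  let R : ∀ i, Fin (s i) → Fin (s i) → Prop := fun i t t' =>
    (lin (l i t) x = 0 ∧ lin (l i t') x = 0) ∨
      (lin (l i t) x ≠ 0 ∧ lin (l i t') x ≠ 0 ∧
        Rel Ω D (lin (l i t) f ^ d i) (lin (l i t') f ^ d i))
  have hRe : ∀ i, Equivalence (R i) := by
    intro i
    refine ⟨?_, ?_, ?_⟩
    · intro t
      by_cases h : lin (l i t) x = 0
      · exact Or.inl ⟨h, h⟩
      · exact Or.inr ⟨h, h, Rel.refl' D _⟩
    · rintro t t' (⟨h1, h2⟩ | ⟨h1, h2, h3⟩)
      · exact Or.inl ⟨h2, h1⟩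
      · exact Or.inr ⟨h2, h1, h3.symm'⟩
    · rintro t t' t'' (⟨h1, h2⟩ | ⟨h1, h2, h3⟩) (⟨h1', h2'⟩ | ⟨h1', h2', h3'⟩)
      · exact Or.inl ⟨h1, h2'⟩
      · exact absurd h2 h1'
      · exact absurd h1' h2
      · exact Or.inr ⟨h1, h2', h3.trans' h3'⟩
  -- proportional derivatives
  have hprop : ∀ i t t', R i t t' →
      D (lin (l i t) f) * lin (l i t') f = D (lin (l i t') f) * lin (l i t) f := by
    rintro i t t' (⟨h1, h2⟩ | ⟨h1, h2, h3⟩)
    · rw [hZ i t h1, hZ i t' h2]
    · exact key D D0 hD P (hregC P hP) (div_ne_zero h1 hj0) (div_ne_zero h2 hj0)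
        (hlin _) (hlin _) (hd i) h3
  -- the tangent vector
  have hDi1 : D (f i1) ≠ 0 := by
    intro h1
    rcases hPθ with h | h
    · rw [h, hD] at h1
      exact hD0 (by simpa using h1)
    · have h2 : D (f i1 - algebraMap Ω E θ) = - algebraMap Ω E (D0 θ) := by
        rw [map_sub, h1, hD, zero_sub]
      have h3 : algebraMap Ω E (D0 θ) ≠ 0 := (map_ne_zero _).2 hD0
      have h4 := hregC P1 hP1 (f i1 - algebraMap Ω E θ) (by rw [h2]; exact neg_ne_zero.2 h3)
      rw [h2, P1.ord_neg, P1.ord_const hD0] at h4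
      omega
  obtain ⟨j2, hj2, hmin⟩ := Finset.exists_min_image
    (Finset.univ.filter fun j => D (f j) ≠ 0) (fun j => P.ord (D (f j)))
    ⟨i1, Finset.mem_filter.2 ⟨Finset.mem_univ _, hDi1⟩⟩
  have hj2' : D (f j2) ≠ 0 := (Finset.mem_filter.1 hj2).2
  let v1 : Fin (n + 1) → E := fun j => D (f j) / D (f j2)
  have hv1 : ∀ j, Ge P 0 (v1 j) := by
    intro j
    by_cases h : D (f j) = 0
    · left; simp only [v1]; rw [h, zero_div]
    · right
      simp only [v1]
      rw [P.ord_div h hj2']
      have := hmin j (Finset.mem_filter.2 ⟨Finset.mem_univ _, h⟩)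
      omega
  have hv1j2 : v1 j2 = 1 := div_self hj2'
  have hv1j0 : v1 j0 = 0 := by
    simp only [v1]
    rw [hfj0, D.map_one_eq_zero, zero_div]
  have hlv1 : ∀ l : Fin (n + 1) → k, lin l v1 = D (lin l f) / D (f j2) := by
    intro l
    have h1 := lin_div l (fun j => D (f j)) (D (f j2))
    rw [lin_D D hDk] at h1
    exact h1
  choose v2 hv2 using fun j => exists_const P (hv1 j)
  have hlv2 : ∀ l : Fin (n + 1) → k, Ge P 1 (lin l v1 - algebraMap Ω E (lin l v2)) := by
    intro l
    have h1 := cong_lin P l v1 (fun j => algebraMap Ω E (v2 j)) hv2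
    rwa [lin_const (A := Ω) (B := E) l v2] at h1
  have hv2j2 : v2 j2 = 1 := by
    have h1 := hv2 j2
    rw [hv1j2] at h1
    have h2 : Ge P 1 (algebraMap Ω E (1 - v2 j2)) := by rw [map_sub, map_one]; exact h1
    exact (sub_eq_zero.1 (const_zero P h2)).symm
  have hv2j0 : v2 j0 = 0 := by
    have h1 := hv2 j0
    rw [hv1j0, zero_sub] at h1
    exact const_zero P (by simpa using h1.neg)
  have hv2Z : ∀ i t, lin (l i t) x = 0 → lin (l i t) v2 = 0 := by
    intro i t h
    have h1 := hlv2 (l i t)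
    rw [hlv1, hZ i t h, map_zero, zero_div, zero_sub] at h1
    exact const_zero P (by simpa using h1.neg)
  have hv2R : ∀ i t t', R i t t' → lin (l i t') x • lin (l i t) v2 =
      lin (l i t) x • lin (l i t') v2 := by
    intro i t t' hR
    have h1 : lin (l i t) v1 * lin (l i t') f = lin (l i t') v1 * lin (l i t) f := by
      rw [hlv1, hlv1]
      have := hprop i t t' hR
      field_simp
      linear_combination this
    have h2 := cong_mul P (hlv2 (l i t)) (Ge.const _) (hlin (l i t')) (hlin0 _)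
    have h3 := cong_mul P (hlv2 (l i t')) (Ge.const _) (hlin (l i t)) (hlin0 _)
    rw [h1] at h2
    have h4 := h3.sub h2
    have h5 : Ge P 1 (algebraMap Ω E (lin (l i t) v2 * algebraMap k Ω (lin (l i t') x / x j0) -
        lin (l i t') v2 * algebraMap k Ω (lin (l i t) x / x j0))) := by
      rw [map_sub, map_mul, map_mul, ← IsScalarTower.algebraMap_apply k Ω E,
        ← IsScalarTower.algebraMap_apply k Ω E]
      convert h4 using 1
      ring
    have h6 := sub_eq_zero.1 (const_zero P h5)
    have h7 : algebraMap k Ω (x j0) ≠ 0 := (map_ne_zero _).2 hj0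
    rw [map_div₀, map_div₀] at h6
    rw [Algebra.smul_def, Algebra.smul_def]
    field_simp at h6
    linear_combination h6
  -- a vector over `k`
  obtain ⟨lam, hlam⟩ : ∃ lam : Ω →ₗ[k] k, lam 1 ≠ 0 := by
    by_contra hcon
    push Not at hcon
    exact one_ne_zero ((Module.forall_dual_apply_eq_zero_iff k (1 : Ω)).1 hcon)
  have hll : ∀ l : Fin (n + 1) → k, lin l (fun j => lam (v2 j)) = lam (lin l v2) := by
    intro l
    unfold lin
    rw [map_sum]
    refine Finset.sum_congr rfl fun j _ => ?_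
    rw [← Algebra.smul_def (l j) (v2 j), map_smul, smul_eq_mul, Algebra.algebraMap_self_apply]
  refine ⟨R, fun j => lam (v2 j), hRe, ⟨j2, j0, ?_⟩, ?_, ?_, ?_⟩
  · beta_reduce
    rw [hv2j2, hv2j0, map_zero, zero_mul]
    exact mul_ne_zero hlam hj0
  · intro i t h
    rw [hll, hv2Z i t h, map_zero]
  · intro i t t' hR
    rw [hll, hll]
    have h1 := congrArg lam (hv2R i t t' hR)
    rw [map_smul, map_smul, smul_eq_mul, smul_eq_mul] at h1
    linear_combination h1
  · intro i t0 A hA
    by_cases h0 : lin (l i t0) x = 0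
    · apply Finset.sum_eq_zero
      intro t ht
      rcases (hA t).1 ht with h | h
      · rw [h.1, zero_pow (hd i).ne']
      · exact absurd h0 h.2.1
    · have h1 := hclass i t0 A ((hJ i t0).2 h0) (by
        intro t
        rw [hA t, hJ]
        constructor
        · rintro (h | h)
          · exact absurd h.2 h0
          · exact ⟨h.1, h.2.2⟩
        · rintro ⟨h, h'⟩
          exact Or.inr ⟨h, h0, h'⟩)
      simp only [one_mul] at h1
      have h2 : Ge P 1 (∑ t ∈ A, (lin (l i t) f ^ d i -
          (algebraMap k E (lin (l i t) x / x j0)) ^ d i)) := by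
        refine Ge.sum _ _ fun t _ => ?_
        exact cong_pow P (hlin (l i t)) (ge_const_k P _) _
      rw [Finset.sum_sub_distrib, h1, zero_sub] at h2
      have h3 : Ge P 1 (algebraMap k E (∑ t ∈ A, (lin (l i t) x / x j0) ^ d i)) := by
        rw [map_sum]
        simp only [map_pow]
        simpa using h2.neg
      have h4 := const_zero_k P h3
      simp only [div_pow] at h4
      rw [← Finset.sum_div, div_eq_zero_iff] at h4
      exact h4.resolve_right (pow_ne_zero _ hj0)

end Pool.Agent.W588.RG.ABW
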